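import Pool.Agent.Lib.MP_e4803a.Main

/-!
Disproof of Q1 of MP_e4803a: for `η = √φ` (`φ` the golden ratio), which is algebraic and not a
Perron number, the sixth cumulant of `S_n` satisfies `κ_6(S_n) / n → +∞`.
-/

namespace Pool.Agent.Results.MP_e4803a_nt.SqrtGolden

open Pool.Agent.Lib.MP_e4803a Filter

theorem result :
    1 < Real.sqrt Real.goldenRatio ∧
    IsAlgebraic ℚ (Real.sqrt Real.goldenRatio) ∧
    ¬ IsPerron (Real.sqrt Real.goldenRatio) ∧
    Tendsto (fun n : ℕ => cumulant 6 (cosSum (Real.sqrt Real.goldenRatio) n) / (n : ℝ))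
      atTop atTop :=
  main

end Pool.Agent.Results.MP_e4803a_nt.SqrtGolden
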